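import Mathlib

/-!
# The bound is monotone in the list of the sizes
-/

set_option autoImplicit false

namespace Pool.Agent.L5helper59.ZT

/-- L11 -/
theorem large_append (m : ℕ) (s'' s' : List ℕ)
    (H : ∀ t : List (ℕ × ℕ), (∀ a ∈ t, 1 ≤ a.2) → t.map Prod.fst = s' →
      ((m : ℝ) / 2 ^ 14) ^ (m ^ 2) ≤
        (t.map fun a => (a.2 : ℝ) ^ (m ^ 2) * (1 + 1 / (a.2 : ℝ)) ^ (2 ^ 21 * a.1)).prod)
    (t : List (ℕ × ℕ)) (ht : ∀ a ∈ t, 1 ≤ a.2) (hts : t.map Prod.fst = s'' ++ s') :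
    ((m : ℝ) / 2 ^ 14) ^ (m ^ 2) ≤
      (t.map fun a => (a.2 : ℝ) ^ (m ^ 2) * (1 + 1 / (a.2 : ℝ)) ^ (2 ^ 21 * a.1)).prod := by
  obtain ⟨t₁, t₂, rfl, h1, h2⟩ := List.map_eq_append_iff.1 hts
  have hone : ∀ a : ℕ × ℕ, 1 ≤ a.2 →
      1 ≤ (a.2 : ℝ) ^ (m ^ 2) * (1 + 1 / (a.2 : ℝ)) ^ (2 ^ 21 * a.1) := by
    intro a ha
    have h : (1 : ℝ) ≤ a.2 := by exact_mod_cast ha
    have h' : (1 : ℝ) ≤ 1 + 1 / (a.2 : ℝ) := by
      have : (0 : ℝ) ≤ 1 / (a.2 : ℝ) := by positivity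
      linarith
    exact one_le_mul_of_one_le_of_one_le (one_le_pow₀ h) (one_le_pow₀ h')
  have hprod : ∀ t : List (ℕ × ℕ), (∀ a ∈ t, 1 ≤ a.2) →
      1 ≤ (t.map fun a => (a.2 : ℝ) ^ (m ^ 2) * (1 + 1 / (a.2 : ℝ)) ^ (2 ^ 21 * a.1)).prod := by
    intro t
    induction t with
    | nil => intro _; simp
    | cons a t ih =>
      intro h
      rw [List.map_cons, List.prod_cons]
      exact one_le_mul_of_one_le_of_one_le (hone a (h a (by simp)))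
        (ih fun b hb => h b (by simp [hb]))
  have h3 := hprod t₁ fun a ha => ht a (by simp [ha])
  have h4 := H t₂ (fun a ha => ht a (by simp [ha])) h2
  rw [List.map_append, List.prod_append]
  have h5 : 0 ≤ (t₂.map fun a => (a.2 : ℝ) ^ (m ^ 2) * (1 + 1 / (a.2 : ℝ)) ^ (2 ^ 21 * a.1)).prod :=
    le_trans zero_le_one (hprod t₂ fun a ha => ht a (by simp [ha]))
  nlinarith [mul_le_mul_of_nonneg_right h3 h5]

end Pool.Agent.L5helper59.ZT
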