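import Pool.Agent.L5helper88.CP.Size

/-!
# Good parameters close to given ones
-/

set_option autoImplicit false

open Finset MvPolynomial Filter

namespace Pool.Agent.L5helper59.ZT

open Pool.Agent.L5helper60.LA Pool.Agent.L5helper88.CP

/-- L8a -/
theorem exists_close {τ σ : Type} [Fintype τ] [DecidableEq τ] [Fintype σ] [DecidableEq σ]
    (P g : MvPolynomial τ ℂ) (hg : g ≠ 0) (a : τ → ℂ) (b : τ → σ → ℂ) (ε : ℝ) (hε : 0 < ε) :
    ∃ a' : τ → ℂ, aeval (fun j => aff (a' j) (b j)) g ≠ 0 ∧
      ∀ d, ‖coeff d (aeval (fun j => aff (a' j) (b j)) P) -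
        coeff d (aeval (fun j => aff (a j) (b j)) P)‖ ≤ ε := by
  choose a' ha'1 ha'2 using fun k : ℕ => exists_near g hg a (1 / ((k : ℝ) + 1))
    (by positivity)
  have haff : ∀ k, aeval (fun j => aff (a' k j) (b j)) g ≠ 0 := by
    intro k h
    apply ha'2 k
    have h1 := congrArg (eval (0 : σ → ℂ)) h
    rw [map_zero] at h1
    have h2 : ∀ Q : MvPolynomial τ ℂ, eval (0 : σ → ℂ) (aeval (fun j => aff (a' k j) (b j)) Q) =
        eval (a' k) Q := by
      intro Q
      induction Q using MvPolynomial.induction_on with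
      | C c => simp
      | add f g hf hg => rw [map_add, map_add, hf, hg, map_add]
      | mul_X f i hf =>
        rw [map_mul, map_mul, hf, map_mul]
        simp [aff]
    rw [h2] at h1
    exact h1
  have hconv : ∀ j, Tendsto (fun k => a' k j) atTop (nhds (a j)) := by
    intro j
    rw [tendsto_iff_norm_sub_tendsto_zero]
    refine squeeze_zero (fun _ => norm_nonneg _) (fun k => ha'1 k j) ?_
    exact tendsto_one_div_add_atTop_nhds_zero_nat
  have hCT : CT (fun k => aeval (fun j => aff (a' k j) (b j)) P)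
      (aeval (fun j => aff (a j) (b j)) P) :=
    CT.aeval _ _ (fun j => (CT.C (hconv j)).add (CT.const _)) P.totalDegree P (fun _ => P)
      (fun _ => le_rfl) (CT.const P)
  -- only finitely many exponents matter
  have hdeg : ∀ (a : τ → ℂ) (d : σ →₀ ℕ), P.totalDegree < d.degree →
      coeff d (aeval (fun j => aff (a j) (b j)) P) = 0 := by
    intro a d hd
    apply coeff_eq_zero_of_totalDegree_lt
    exact lt_of_le_of_lt
      (L5helper67.DC.totalDegree_aeval_le _ (fun j => totalDegree_aff _ _) _) hd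
  set Bx : Finset (σ →₀ ℕ) :=
    Finset.Icc (0 : σ →₀ ℕ) (Finsupp.equivFunOnFinite.symm fun _ : σ => P.totalDegree) with hBx
  have hall : ∀ᶠ k in atTop, ∀ d ∈ Bx, ‖coeff d (aeval (fun j => aff (a' k j) (b j)) P) -
        coeff d (aeval (fun j => aff (a j) (b j)) P)‖ ≤ ε := by
    rw [Filter.eventually_all_finset]
    intro d _
    have h := tendsto_iff_norm_sub_tendsto_zero.1 (hCT d)
    exact (h.eventually (ge_mem_nhds hε)).mono fun k hk => hk
  obtain ⟨k, hk⟩ := hall.exists
  refine ⟨a' k, haff k, fun d => ?_⟩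
  by_cases hd : d ∈ Bx
  · exact hk d hd
  · have h1 : P.totalDegree < d.degree := by
      by_contra h
      push Not at h
      apply hd
      rw [hBx, Finset.mem_Icc]
      refine ⟨bot_le, fun i => ?_⟩
      exact (Finsupp.le_degree i d).trans h
    rw [hdeg _ d h1, hdeg _ d h1, sub_zero, norm_zero]
    exact hε.le

end Pool.Agent.L5helper59.ZT
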